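import Mathlib
import Pool.Agent.H994.Driven.Defs
import Pool.Agent.H994.Driven.Proof

namespace Pool.Agent.Results.MP_4e5d1f_mp.GeneratingContractive

open Matrix Pool.Agent.H994.Driven

/-- **Algebra-generating jump operators are Hamiltonian-independently contractive.**
Moreover the constants `C, γ` can be chosen depending on the jump operators only. -/
theorem result (d m : ℕ) (hd : 2 ≤ d) (L : Fin m → Matrix (Fin d) (Fin d) ℂ)
    (hL : Algebra.adjoin ℂ (Set.range L) = ⊤) :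
    HamIndepContractive L ∧
    ∃ C : ℝ, 0 < C ∧ ∃ γ : ℝ, 0 < γ ∧ ∀ H : ℝ → Matrix (Fin d) (Fin d) ℂ, IsDrive H →
      ∀ E : ℝ → ℝ → (Matrix (Fin d) (Fin d) ℂ →ₗ[ℂ] Matrix (Fin d) (Fin d) ℂ), IsPropagator L H E →
      ∀ s t : ℝ, 0 ≤ s → s ≤ t → ∀ ρ σ : Matrix (Fin d) (Fin d) ℂ, IsDensity ρ → IsDensity σ →
        traceNorm (E t s ρ - E t s σ) ≤ C * Real.exp (-(γ * (t - s))) * traceNorm (ρ - σ) :=
  ⟨main hd hL, uniform hd hL⟩

end Pool.Agent.Results.MP_4e5d1f_mp.GeneratingContractive
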